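import Pool.Agent.Lib.MP_688fd0_co.SQ5.H24.C1n
import Pool.Agent.Lib.MP_688fd0_co.SQ5.H23.C2

/-!
C2, row BRIDGE: `NearNS` gives `SQD.Near3S` (choice of the middle letter).
-/

set_option autoImplicit false

namespace Pool.Agent.Lib.MP_688fd0_co.SQ5.N

open Pool.Agent.Lib.MP_688fd0_co.OSF Pool.Agent.Lib.MP_688fd0_co.SQ2 Pool.Agent.Lib.MP_688fd0_co.SQ3
open Pool.Agent.Lib.MP_688fd0_co.SQ4
open Subgroup

/-! ### The `P`-height `x ↦ x ^ (k M)`, `card N = P M` -/

section hgt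

variable {G : Type} [Group G] [Finite G] {N C : Subgroup G} {eps : G →* ℤˣ} {k P M : ℕ}

omit [Finite G] in
theorem pow_k_mem (h : GN N C eps k P) (x : G) : x ^ k ∈ N := by
  have hNn := h.Nn
  have h1 := pow_index_mem N x
  rwa [h.idx] at h1

omit [Finite G] in
theorem nd_M (h : GN N C eps k P) (hM : Nat.card N = P * M) : ¬ P ∣ M := by
  intro hd
  have h1 := h.Nsq
  rw [hM] at h1
  obtain ⟨l, rfl⟩ := hd
  have h2 : P * P ∣ P * (P * l) := ⟨l, by ring⟩
  exact h.prime.one_lt.ne' (Nat.isUnit_iff.1 (h1 P h2))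

omit [Finite G] in
theorem nd_k (h : GN N C eps k P) : ¬ P ∣ k := by
  intro hd
  have h1 := Nat.dvd_gcd h.dvd hd
  rw [h.cop] at h1
  exact h.prime.one_lt.ne' (Nat.dvd_one.1 h1)

theorem hgt_mul (h : GN N C eps k P) (hM : Nat.card N = P * M) {x y : G} (hx : eps x = 1) (hy : eps y = 1) :
    (x * y) ^ (k * M) = x ^ (k * M) * y ^ (k * M) := by
  obtain ⟨c, hc⟩ : ∃ c, c = ((x * y) ^ k)⁻¹ * (x ^ k * y ^ k) := ⟨_, rfl⟩
  have hcC : c ∈ C := by rw [hc]; exact pow_mod_C h x y hx hy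
  have hcM : c ^ M = 1 := by
    apply orderOf_dvd_iff_pow_eq_one.1
    have h1 : orderOf c ∣ Nat.card C := by
      have := orderOf_dvd_natCard (⟨c, hcC⟩ : C)
      rwa [Subgroup.orderOf_mk] at this
    have h2 : Nat.card C ∣ P * M := hM ▸ card_dvd_of_le h.CN
    have h3 : (Nat.card C).Coprime P := ((Nat.Prime.coprime_iff_not_dvd h.prime).2 h.ndvd).symm
    exact h1.trans (h3.dvd_of_dvd_mul_left h2)
  have h1 : x ^ k * y ^ k = (x * y) ^ k * c := by rw [hc]; group
  have hab : ∀ u ∈ N, ∀ v ∈ N, Commute u v := fun u hu v hv => SQ2.H41.comm_of_cyclic N h.Nc u hu v hv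
  have h2 : (x ^ k * y ^ k) ^ M = ((x * y) ^ k * c) ^ M := by rw [h1]
  rw [(hab _ (pow_k_mem h x) _ (pow_k_mem h y)).mul_pow, (hab _ (pow_k_mem h _) _ (h.CN hcC)).mul_pow, hcM,
    mul_one, ← pow_mul, ← pow_mul, ← pow_mul] at h2
  exact h2.symm

omit [Finite G] in
theorem hgt_one (h : GN N C eps k P) (hM : Nat.card N = P * M) (x : G) : ¬ P ∣ orderOf x ↔ x ^ (k * M) = 1 := by
  constructor
  · intro hd
    apply orderOf_dvd_iff_pow_eq_one.1
    have h1 : orderOf x ∣ Nat.card G := orderOf_dvd_natCard x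
    have h2 : Nat.card G = P * (k * M) := by
      rw [← N.card_mul_index, h.idx, hM]; ring
    rw [h2] at h1
    exact (((Nat.Prime.coprime_iff_not_dvd h.prime).2 hd).symm).dvd_of_dvd_mul_left h1
  · intro h1 hd
    have h2 : P ∣ k * M := hd.trans (orderOf_dvd_of_pow_eq_one h1)
    rcases h.prime.dvd_mul.1 h2 with h3 | h3
    · exact nd_k h h3
    · exact nd_M h hM h3

omit [Finite G] in
theorem hgt_P (h : GN N C eps k P) (hM : Nat.card N = P * M) (x : G) : (x ^ (k * M)) ^ P = 1 := by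
  have h2 : Nat.card G = k * M * P := by
    rw [← N.card_mul_index, h.idx, hM]; ring
  rw [← pow_mul, ← h2]
  exact pow_card_eq_one'

omit [Finite G] in
theorem hgt_small (h : GN N C eps k P) (hM : Nat.card N = P * M) (x : G) {n : ℕ} (hn : 0 < n) (hnP : n < P)
    (h1 : (x ^ (k * M)) ^ n = 1) : x ^ (k * M) = 1 := by
  have h2 : orderOf (x ^ (k * M)) ∣ Nat.gcd n P :=
    Nat.dvd_gcd (orderOf_dvd_of_pow_eq_one h1) (orderOf_dvd_of_pow_eq_one (hgt_P h hM x))
  have h3 : Nat.gcd n P = 1 :=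
    ((Nat.Prime.coprime_iff_not_dvd h.prime).2 (Nat.not_dvd_of_pos_of_lt hn hnP)).symm
  rw [h3, Nat.dvd_one] at h2
  exact orderOf_eq_one_iff.1 h2

omit [Finite G] in
theorem hgt_comm (h : GN N C eps k P) (x y : G) : Commute (x ^ (k * M)) (y ^ (k * M)) := by
  rw [pow_mul, pow_mul]
  exact SQ2.H41.comm_of_cyclic N h.Nc _ (N.pow_mem (pow_k_mem h x) M) _ (N.pow_mem (pow_k_mem h y) M)

end hgt

/-! ### `ker eps` is generated by `x y`, `y z` -/

theorem ker_le {G : Type} [Group G] {eps : G →* ℤˣ} {x y z : G} (hI : InvG eps x y z) {g : G} (hg : eps g = 1) :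
    g ∈ closure {x * y, y * z} := by
  set H := closure {x * y, y * z} with hH
  have hxy : x * y ∈ H := subset_closure (Or.inl rfl)
  have hyz : y * z ∈ H := subset_closure (Or.inr rfl)
  have hxi : x⁻¹ = x := inv_eq_of_mul_eq_one_left hI.ia
  have hyi : y⁻¹ = y := inv_eq_of_mul_eq_one_left hI.it
  have hzi : z⁻¹ = z := inv_eq_of_mul_eq_one_left hI.ib
  have hyx : y * x ∈ H := by
    have h1 := H.inv_mem hxy
    rwa [mul_inv_rev, hxi, hyi] at h1
  have hzy : z * y ∈ H := by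
    have h1 := H.inv_mem hyz
    rwa [mul_inv_rev, hzi, hyi] at h1
  have hnor : ∀ u ∈ H, y * u * y ∈ H := by
    intro u hu
    rw [hH] at hu
    induction hu using closure_induction with
    | mem u hu =>
      rcases hu with rfl | rfl
      · have h1 : y * (x * y) * y = y * x := by rw [mul_assoc y, mul_assoc x, hI.it, mul_one]
        rw [h1]; exact hyx
      · have h1 : y * (y * z) * y = z * y := by rw [← mul_assoc y y, hI.it, one_mul]
        rw [h1]; exact hzy
    | one => rw [mul_one, hI.it]; exact H.one_mem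
    | mul u v _ _ hu hv =>
      have h1 : y * (u * v) * y = (y * u * y) * (y * v * y) := by
        have h2 : (y * u * y) * (y * v * y) = y * u * (y * y) * v * y := by group
        rw [h2, hI.it]; group
      rw [h1]; exact H.mul_mem hu hv
    | inv u _ hu =>
      have h1 := H.inv_mem hu
      have h2 : (y * u * y)⁻¹ = y * u⁻¹ * y := by
        rw [mul_inv_rev, mul_inv_rev, hyi, mul_assoc]
      rwa [h2] at h1
  have hsy : ∀ s ∈ ({x, y, z} : Set G), s * y ∈ H := by
    rintro s (rfl | rfl | rfl)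
    · exact hxy
    · rw [hI.it]; exact H.one_mem
    · exact hzy
  have heps : ∀ s ∈ ({x, y, z} : Set G), eps s = -1 := by
    rintro s (rfl | rfl | rfl)
    exacts [hI.ea, hI.et, hI.eb]
  have hinv : ∀ s ∈ ({x, y, z} : Set G), s⁻¹ = s := by
    rintro s (rfl | rfl | rfl)
    exacts [hxi, hyi, hzi]
  have key : ∀ g ∈ closure ({x, y, z} : Set G), (eps g = 1 → g ∈ H) ∧ (eps g = -1 → g * y ∈ H) := by
    intro g hg
    have hs : ∀ s ∈ ({x, y, z} : Set G), ∀ g : G, ((eps g = 1 → g ∈ H) ∧ (eps g = -1 → g * y ∈ H)) →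
        ((eps (s * g) = 1 → s * g ∈ H) ∧ (eps (s * g) = -1 → s * g * y ∈ H)) := by
      intro s hs g ⟨h1, h2⟩
      constructor
      · intro h3
        rw [map_mul, heps s hs] at h3
        have h4 : eps g = -1 := by
          rcases Int.units_eq_one_or (eps g) with h5 | h5
          · rw [h5] at h3; exact absurd h3 (by decide)
          · exact h5
        have h5 : s * g = (s * y) * (y * (g * y) * y) := by
          have h6 : (s * y) * (y * (g * y) * y) = s * (y * y) * g * (y * y) := by group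
          rw [h6, hI.it]; group
        rw [h5]
        exact H.mul_mem (hsy s hs) (hnor _ (h2 h4))
      · intro h3
        rw [map_mul, heps s hs] at h3
        have h4 : eps g = 1 := by
          rcases Int.units_eq_one_or (eps g) with h5 | h5
          · exact h5
          · rw [h5] at h3; exact absurd h3 (by decide)
        have h5 : s * g * y = (s * y) * (y * g * y) := by
          have h6 : (s * y) * (y * g * y) = s * (y * y) * g * y := by group
          rw [h6, hI.it]; group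
        rw [h5]
        exact H.mul_mem (hsy s hs) (hnor _ (h1 h4))
    induction hg using closure_induction_left with
    | one => exact ⟨fun _ => H.one_mem, fun h => absurd (map_one eps ▸ h) (by decide)⟩
    | mul_left s hs' g _ ih => exact hs s hs' g ih
    | inv_mul_cancel s hs' g _ ih => rw [hinv s hs']; exact hs s hs' g ih
  exact (key g (by rw [hI.gen]; exact mem_top g)).1 hg

theorem ker_comm {G : Type} [Group G] {N : Subgroup G} (hN : N.Normal) {eps : G →* ℤˣ} {x y z : G}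
    (hI : InvG eps x y z) (h : (x * y) * (y * z) * (x * y)⁻¹ * (y * z)⁻¹ ∈ N) :
    ∀ g g' : G, eps g = 1 → eps g' = 1 → g * g' * g⁻¹ * g'⁻¹ ∈ N := by
  let π := QuotientGroup.mk' N
  have hiff : ∀ u v : G, u * v * u⁻¹ * v⁻¹ ∈ N ↔ Commute (π u) (π v) := by
    intro u v
    rw [← QuotientGroup.eq_one_iff]
    show π (u * v * u⁻¹ * v⁻¹) = 1 ↔ _
    rw [map_mul, map_mul, map_mul, map_inv, map_inv, mul_inv_eq_one, mul_inv_eq_iff_eq_mul]
    rfl
  have h0 := (hiff _ _).1 h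
  have h1 : ∀ v ∈ closure {x * y, y * z}, ∀ u ∈ ({x * y, y * z} : Set G), Commute (π u) (π v) := by
    intro v hv u hu
    induction hv using closure_induction with
    | mem v hv =>
      rcases hu with rfl | rfl <;> rcases hv with rfl | rfl
      · exact Commute.refl _
      · exact h0
      · exact h0.symm
      · exact Commute.refl _
    | one => rw [map_one]; exact Commute.one_right _
    | mul v w _ _ hv hw => rw [map_mul]; exact hv.mul_right hw
    | inv v _ hv => rw [map_inv]; exact hv.inv_right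
  intro g g' hg hg'
  rw [hiff]
  have h3 := ker_le hI hg'
  have h4 : ∀ u ∈ closure {x * y, y * z}, Commute (π u) (π g') := by
    intro u hu
    induction hu using closure_induction with
    | mem u hu => exact h1 _ h3 u hu
    | one => rw [map_one]; exact Commute.one_left _
    | mul u v _ _ hu hv => rw [map_mul]; exact hu.mul_left hv
    | inv u _ hu => rw [map_inv]; exact hu.inv_left
  exact h4 g (ker_le hI hg)

/-! ### The positive relation -/

theorem rel_pos {G : Type} [Group G] [Finite G] {N C : Subgroup G} {eps : G →* ℤˣ} {k P M : ℕ} (h : GN N C eps k P)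
    (hM : Nat.card N = P * M) {x y z : G} (hI : InvG eps x y z) {m n : ℕ}
    (hr : ((x * y) ^ (k * M)) ^ m = ((y * z) ^ (k * M)) ^ n) : ¬ P ∣ orderOf (relN x y z m n) := by
  have e1 : eps ((x * y) ^ m) = 1 := by rw [map_pow, map_mul, hI.ea, hI.et]; simp
  have e2 : eps (((y * z) ^ n)⁻¹) = 1 := by rw [map_inv, map_pow, map_mul, hI.et, hI.eb]; simp
  rw [hgt_one h hM]
  unfold relN
  have h1 : ∀ (u : G) (l : ℕ), (u ^ l) ^ (k * M) = (u ^ (k * M)) ^ l := fun u l => by
    rw [← pow_mul, ← pow_mul, mul_comm]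
  rw [hgt_mul h hM e1 e2, inv_pow, h1, h1, hr, mul_inv_cancel]

theorem bridge_num {k Ω e c P : ℕ} (hk : 1 ≤ k) (hΩ : 1 ≤ Ω) (hP : 2 ^ ((k + Ω) ^ ((e + 2) * c + e + 4)) ≤ P) :
    (k + Ω) ^ e < P ∧ 2 ^ ((k + (k + Ω) ^ e + Ω) ^ c) ≤ P ∧
      8 * ((k + Ω) ^ e * k) * k ≤ (k + Ω + 2) ^ ((e + 2) * c + e + 4) := by
  obtain ⟨Y, hY⟩ : ∃ Y, Y = k + Ω := ⟨_, rfl⟩
  have hY2 : 2 ≤ Y := by omega
  have hY0 : 0 < Y := by omega
  rw [← hY] at hP ⊢
  refine ⟨?_, ?_, ?_⟩
  · have h1 : Y ^ e ≤ 2 ^ (Y * e) := by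
      rw [pow_mul]
      exact Nat.pow_le_pow_left Nat.lt_two_pow_self.le e
    have h2 : Y * e < Y ^ ((e + 2) * c + e + 4) := by
      have h3 : e < Y ^ e := Nat.lt_pow_self (by omega)
      calc Y * e < Y * Y ^ e := Nat.mul_lt_mul_of_pos_left h3 hY0
        _ = Y ^ (e + 1) := by ring
        _ ≤ Y ^ ((e + 2) * c + e + 4) := Nat.pow_le_pow_right hY0 (by omega)
    exact (h1.trans_lt (Nat.pow_lt_pow_right (by norm_num) h2)).trans_le hP
  · have h1 : k + Y ^ e + Ω ≤ Y ^ (e + 2) := by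
      have h2 : Y ≤ Y ^ (e + 1) := Nat.le_self_pow (by omega) _
      have h3 : Y ^ e ≤ Y ^ (e + 1) := Nat.pow_le_pow_right hY0 (by omega)
      have h4 : 2 * Y ^ (e + 1) ≤ Y ^ (e + 2) := by
        rw [pow_succ Y (e + 1), mul_comm]
        exact Nat.mul_le_mul_left _ hY2
      omega
    refine le_trans (Nat.pow_le_pow_right (by norm_num) ?_) hP
    calc (k + Y ^ e + Ω) ^ c ≤ (Y ^ (e + 2)) ^ c := Nat.pow_le_pow_left h1 c
      _ = Y ^ ((e + 2) * c) := (pow_mul _ _ _).symm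
      _ ≤ _ := Nat.pow_le_pow_right hY0 (by omega)
  · obtain ⟨X, hX⟩ : ∃ X, X = Y + 2 := ⟨_, rfl⟩
    rw [← hX]
    have hX4 : 4 ≤ X := by omega
    have h1 : Y ^ e ≤ X ^ e := Nat.pow_le_pow_left (by omega) e
    have h2 : 8 ≤ X ^ 2 := by nlinarith
    calc 8 * (Y ^ e * k) * k ≤ X ^ 2 * (X ^ e * X) * X :=
          Nat.mul_le_mul (Nat.mul_le_mul h2 (Nat.mul_le_mul h1 (by omega))) (by omega)
      _ = X ^ (e + 4) := by ring
      _ ≤ _ := Nat.pow_le_pow_right (by omega) (by omega)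

/-- BRIDGE. -/
theorem near3 (hN : NearNS) : SQD.Near3S := by
  obtain ⟨c, hN⟩ := hN
  intro e c₁
  refine ⟨(e + 2) * c + e + 4, ?_⟩
  intro G _ _ N C eps k P a t b hT hMg hR hPb
  have hg := hT.gn
  have hPp := hg.prime
  have hNn := hg.Nn
  have hPG : P ∣ Nat.card G := hg.dvd.trans (card_subgroup_dvd_card N)
  have hΩ : 1 ≤ (Nat.card G).primeFactorsList.length :=
    List.length_pos_of_mem ((Nat.mem_primeFactorsList Nat.card_pos.ne').2 ⟨hPp, hPG⟩)
  have hk : 1 ≤ k := by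
    rw [← hg.idx]
    exact Nat.pos_of_ne_zero N.index_ne_zero_of_finite
  obtain ⟨hτP, hP2, h8⟩ := bridge_num hk hΩ hPb
  have hmarg : ∀ p ∈ (Nat.card N).primeFactors,
      8 * ((k + (Nat.card G).primeFactorsList.length) ^ e * k) * k < p := fun p hp => h8.trans_lt (hMg p hp)
  obtain ⟨τ, hτ⟩ : ∃ τ, τ = (k + (Nat.card G).primeFactorsList.length) ^ e := ⟨_, rfl⟩
  rw [← hτ] at hτP hP2 hmarg hR
  obtain ⟨M, hM⟩ := hg.dvd
  have hai : a⁻¹ = a := inv_eq_of_mul_eq_one_left hT.aa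
  have hti : t⁻¹ = t := inv_eq_of_mul_eq_one_left hT.tt
  have hbi : b⁻¹ = b := inv_eq_of_mul_eq_one_left hT.bb
  -- the three orders
  have hI1 : InvG eps a t b := ⟨hT.ea, hT.et, hT.eb, hT.aa, hT.tt, hT.bb, hT.gen⟩
  have s2 : ({b, a, t} : Set G) = {a, t, b} := by ext x; simp only [Set.mem_insert_iff, Set.mem_singleton_iff]; tauto
  have s3 : ({a, b, t} : Set G) = {a, t, b} := by ext x; simp only [Set.mem_insert_iff, Set.mem_singleton_iff]; tauto
  have hI2 : InvG eps b a t := ⟨hT.eb, hT.ea, hT.et, hT.bb, hT.aa, hT.tt, by rw [s2]; exact hT.gen⟩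
  have hI3 : InvG eps a b t := ⟨hT.ea, hT.eb, hT.et, hT.aa, hT.bb, hT.tt, by rw [s3]; exact hT.gen⟩
  have fin : ∀ x y z : G, InvG eps x y z → ({x, y, z} : Set G) = {a, t, b} → ∀ m n : ℕ, 0 < m → m ≤ τ → 0 < n →
      n ≤ τ → ((x * y) ^ (k * M)) ^ m = ((y * z) ^ (k * M)) ^ n → Lst ({a, t, b} : Set G) := by
    intro x y z hI hs m n hm hmτ hn hnτ hr
    have h1 := hN G N C eps k P hg x y z τ m n hI hm hmτ hn hnτ (rel_pos hg hM hI hr) hmarg
      (fun h => hT.nab (ker_comm hNn hI h)) hP2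
    unfold AN at h1
    rwa [hs] at h1
  obtain ⟨α, hα⟩ : ∃ α, α = (a * t) ^ (k * M) := ⟨_, rfl⟩
  obtain ⟨β, hβ⟩ : ∃ β, β = (t * b) ^ (k * M) := ⟨_, rfl⟩
  have e1 : eps (a * t) = 1 := by rw [map_mul, hT.ea, hT.et]; decide
  have e2 : eps (t * b) = 1 := by rw [map_mul, hT.et, hT.eb]; decide
  have hαβ : α * β = (a * b) ^ (k * M) := by
    rw [hα, hβ, ← hgt_mul hg hM e1 e2]
    congr 1
    rw [mul_assoc, ← mul_assoc t, hT.tt, one_mul]
  have hcm : Commute α β := by rw [hα, hβ]; exact hgt_comm hg _ _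
  have hba : (b * a) ^ (k * M) = (α * β)⁻¹ := by
    rw [hαβ, ← inv_pow, mul_inv_rev, hai, hbi]
  have hbt : (b * t) ^ (k * M) = β⁻¹ := by
    rw [hβ, ← inv_pow, mul_inv_rev, hti, hbi]
  have hα1 : α ≠ 1 := by
    rw [hα]; exact fun h => (hgt_one hg hM _).2 h hT.hat
  have hβ1 : β ≠ 1 := by
    rw [hβ]; exact fun h => (hgt_one hg hM _).2 h hT.htb
  have hαβ1 : α * β ≠ 1 := by
    rw [hαβ]; exact fun h => (hgt_one hg hM _).2 h hT.hab
  have hαs : ∀ n : ℕ, 0 < n → n ≤ τ → α ^ n ≠ 1 := fun n hn hn' h => by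
    rw [hα] at h hα1
    exact hα1 (hgt_small hg hM _ hn (hn'.trans_lt hτP) h)
  have hβs : ∀ n : ℕ, 0 < n → n ≤ τ → β ^ n ≠ 1 := fun n hn hn' h => by
    rw [hβ] at h hβ1
    exact hβ1 (hgt_small hg hM _ hn (hn'.trans_lt hτP) h)
  have hαβs : ∀ n : ℕ, 0 < n → n ≤ τ → (α * β) ^ n ≠ 1 := fun n hn hn' h => by
    rw [hαβ] at h hαβ1
    exact hαβ1 (hgt_small hg hM _ hn (hn'.trans_lt hτP) h)
  obtain ⟨m, n, hmn, hm, hn, hr⟩ := hR
  have hrel : α ^ m = β ^ n := by
    have e3 : eps ((a * t) ^ m) = 1 := by rw [map_zpow, e1, one_zpow]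
    have e4 : eps ((b * t) ^ n) = 1 := by
      have h1 : eps (b * t) = 1 := by rw [map_mul, hT.et, hT.eb]; decide
      rw [map_zpow, h1, one_zpow]
    rw [hgt_one hg hM, hgt_mul hg hM e3 e4] at hr
    have h1 : ((a * t) ^ m) ^ (k * M) = α ^ m := by
      rw [hα, ← zpow_natCast, ← zpow_natCast, ← zpow_mul, ← zpow_mul, mul_comm]
    have h2 : ((b * t) ^ n) ^ (k * M) = (β⁻¹) ^ n := by
      rw [← hbt, ← zpow_natCast, ← zpow_natCast, ← zpow_mul, ← zpow_mul, mul_comm]
    rw [h1, h2, inv_zpow] at hr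
    exact mul_inv_eq_one.1 hr
  have hma : m.natAbs ≤ τ := by have := Int.natCast_natAbs m; omega
  have hna : n.natAbs ≤ τ := by have := Int.natCast_natAbs n; omega
  have hm0 : m ≠ 0 := by
    rintro rfl
    have hn0 : n ≠ 0 := by rcases hmn with h | h; exacts [absurd rfl h, h]
    rw [zpow_zero] at hrel
    apply hβs n.natAbs (Int.natAbs_pos.2 hn0) hna
    rcases Int.natAbs_eq n with h | h
    · rw [h, zpow_natCast] at hrel; exact hrel.symm
    · rw [h, zpow_neg, zpow_natCast] at hrel; exact inv_eq_one.1 hrel.symm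
  have hn0 : n ≠ 0 := by
    rintro rfl
    rw [zpow_zero] at hrel
    apply hαs m.natAbs (Int.natAbs_pos.2 hm0) hma
    rcases Int.natAbs_eq m with h | h
    · rw [h, zpow_natCast] at hrel; exact hrel
    · rw [h, zpow_neg, zpow_natCast] at hrel; exact inv_eq_one.1 hrel
  have hmp := Int.natAbs_pos.2 hm0
  have hnp := Int.natAbs_pos.2 hn0
  obtain ⟨m', hm'⟩ : ∃ m', m' = m.natAbs := ⟨_, rfl⟩
  obtain ⟨n', hn'⟩ : ∃ n', n' = n.natAbs := ⟨_, rfl⟩
  rw [← hm'] at hma hmp
  rw [← hn'] at hna hnp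
  have hcase : α ^ m' = β ^ n' ∨ α ^ m' * β ^ n' = 1 := by
    rcases Int.natAbs_eq m with h | h <;> rcases Int.natAbs_eq n with h' | h' <;> rw [← hm'] at h <;>
      rw [← hn'] at h' <;> rw [h, h'] at hrel
    · left; rwa [zpow_natCast, zpow_natCast] at hrel
    · right; rw [zpow_neg, zpow_natCast, zpow_natCast] at hrel; rw [hrel, inv_mul_cancel]
    · right; rw [zpow_neg, zpow_natCast, zpow_natCast] at hrel; rw [← hrel, mul_inv_cancel]
    · left; rw [zpow_neg, zpow_neg, zpow_natCast, zpow_natCast] at hrel; exact inv_injective hrel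
  rcases hcase with h | h
  · exact fin a t b hI1 rfl m' n' hmp hma hnp hna (by rw [← hα, ← hβ]; exact h)
  · have hβi : α ^ m' = (β ^ n')⁻¹ := mul_eq_one_iff_eq_inv.1 h
    rcases lt_trichotomy m' n' with hlt | heq | hgt
    · refine fin a b t hI3 s3 m' (n' - m') hmp hma (by omega) (by omega) ?_
      rw [← hαβ, hbt, hcm.mul_pow, inv_pow, hβi]
      have h2 : β ^ n' = β ^ m' * β ^ (n' - m') := by rw [← pow_add]; congr 1; omega
      rw [h2, mul_inv_rev, inv_mul_cancel_right]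
    · exfalso
      apply hαβs m' hmp hma
      rw [hcm.mul_pow]
      rw [← heq] at h
      exact h
    · refine fin b a t hI2 s2 n' (m' - n') hnp hna (by omega) (by omega) ?_
      rw [hba, ← hα, inv_pow, hcm.mul_pow]
      have h2 : α ^ m' = α ^ (m' - n') * α ^ n' := by rw [← pow_add]; congr 1; omega
      have h3 : α ^ (m' - n') = (β ^ n')⁻¹ * (α ^ n')⁻¹ := by
        rw [← hβi, h2, mul_inv_cancel_right]
      rw [h3, mul_inv_rev]

end Pool.Agent.Lib.MP_688fd0_co.SQ5.N
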