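import Pool.Agent.Lib.MP_688fd0_co.SQ5.NA.Iface

/-!
C2, NEAR-ALL, row BRIDGEA: `NearAllS` and `ExtrS` give `SQD.InvNearS`.
-/

set_option autoImplicit false

namespace Pool.Agent.Lib.MP_688fd0_co.SQ5.NA

open Pool.Agent.Lib.MP_688fd0_co.OSF Pool.Agent.Lib.MP_688fd0_co.SQ2 Pool.Agent.Lib.MP_688fd0_co.SQ3
open Pool.Agent.Lib.MP_688fd0_co.SQ4 Pool.Agent.Lib.MP_688fd0_co.SQ5.N
open Subgroup

theorem bridgeA_num {k Ω e c P : ℕ} (hk : 1 ≤ k) (hΩ : 1 ≤ Ω)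
    (hP : 2 ^ ((k + Ω) ^ ((3 * e + 2) * c + 27 * e + 9)) ≤ P) :
    2 ^ ((k + 2 * ((k + Ω) ^ e) ^ 3 + Ω) ^ c) ≤ P ∧
      36 * (2 * ((k + Ω) ^ e) ^ 3) ^ 9 * k ≤ (k + Ω + 2) ^ ((3 * e + 2) * c + 27 * e + 9) := by
  obtain ⟨Y, hY⟩ : ∃ Y, Y = k + Ω := ⟨_, rfl⟩
  have hY2 : 2 ≤ Y := by omega
  have hY0 : 0 < Y := by omega
  rw [← hY] at hP ⊢
  have h0 : (Y ^ e) ^ 3 = Y ^ (3 * e) := by rw [← pow_mul, mul_comm]
  rw [h0]
  refine ⟨?_, ?_⟩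
  · have h1 : k + 2 * Y ^ (3 * e) + Ω ≤ Y ^ (3 * e + 2) := by
      have h2 : Y ≤ Y ^ (3 * e + 1) := Nat.le_self_pow (by omega) _
      have h3 : 2 * Y ^ (3 * e) ≤ Y ^ (3 * e + 1) := by
        rw [pow_succ, mul_comm]
        exact Nat.mul_le_mul_left _ hY2
      have h4 : 2 * Y ^ (3 * e + 1) ≤ Y ^ (3 * e + 2) := by
        rw [pow_succ Y (3 * e + 1), mul_comm]
        exact Nat.mul_le_mul_left _ hY2
      omega
    refine le_trans (Nat.pow_le_pow_right (by norm_num) ?_) hP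
    calc (k + 2 * Y ^ (3 * e) + Ω) ^ c ≤ (Y ^ (3 * e + 2)) ^ c := Nat.pow_le_pow_left h1 c
      _ = Y ^ ((3 * e + 2) * c) := (pow_mul _ _ _).symm
      _ ≤ _ := Nat.pow_le_pow_right hY0 (by omega)
  · obtain ⟨X, hX⟩ : ∃ X, X = Y + 2 := ⟨_, rfl⟩
    rw [← hX]
    have hX4 : 4 ≤ X := by omega
    have h1 : Y ^ (3 * e) ≤ X ^ (3 * e) := Nat.pow_le_pow_left (by omega) _
    have h2 : 36 ≤ X ^ 3 := by
      calc 36 ≤ 4 ^ 3 := by norm_num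
        _ ≤ X ^ 3 := Nat.pow_le_pow_left hX4 3
    have h3 : 2 ^ 9 ≤ X ^ 5 := by
      calc 2 ^ 9 ≤ 4 ^ 5 := by norm_num
        _ ≤ X ^ 5 := Nat.pow_le_pow_left hX4 5
    calc 36 * (2 * Y ^ (3 * e)) ^ 9 * k = 36 * (2 ^ 9 * (Y ^ (3 * e)) ^ 9) * k := by rw [mul_pow]
      _ ≤ X ^ 3 * (X ^ 5 * (X ^ (3 * e)) ^ 9) * X :=
          Nat.mul_le_mul (Nat.mul_le_mul h2 (Nat.mul_le_mul h3 (Nat.pow_le_pow_left h1 9))) (by omega)
      _ = X ^ (27 * e + 9) := by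
          rw [← pow_mul]
          ring
      _ ≤ _ := Nat.pow_le_pow_right (by omega) (by omega)

/-- BRIDGEA. -/
theorem invNear (hN : NearAllS) (hE : ExtrS) : SQD.InvNearS := by
  obtain ⟨c, hN⟩ := hN
  intro e c₁
  refine ⟨(3 * e + 2) * c + 27 * e + 9, ?_⟩
  intro G _ _ N C eps k P A a t b hI hMg hR hPd hPb
  have hg := hI.gn
  have hPG : P ∣ Nat.card G := hg.dvd.trans (card_subgroup_dvd_card N)
  have hΩ : 1 ≤ (Nat.card G).primeFactorsList.length :=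
    List.length_pos_of_mem ((Nat.mem_primeFactorsList Nat.card_pos.ne').2 ⟨hg.prime, hPG⟩)
  have hk : 1 ≤ k := by
    rw [← hg.idx]
    exact Nat.pos_of_ne_zero N.index_ne_zero_of_finite
  obtain ⟨hP2, h36⟩ := bridgeA_num hk hΩ hPb
  have hat : a ≠ t := by
    intro h
    have h1 := hI.hat
    rw [h, hI.inv t hI.tA, orderOf_one] at h1
    exact hg.prime.one_lt.ne' (Nat.dvd_one.1 h1)
  have hτ0 : 0 < (k + (Nat.card G).primeFactorsList.length) ^ e := Nat.pow_pos (by omega)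
  obtain ⟨a', b', num, den, hA⟩ := hE G N C eps k P A ((k + (Nat.card G).primeFactorsList.length) ^ e) hg hI.gen
    hI.neg hI.inv ⟨a, hI.aA, t, hI.tA, hat⟩ hτ0 (fun p hp => h36.trans_lt (hMg p hp)) hR hPd
  refine hN G N C eps k P A a' b' _ num den hA ⟨a * t, b * t, ?_, ?_, hI.nab⟩ hP2
  · rw [map_mul, hI.neg a hI.aA, hI.neg t hI.tA]; decide
  · rw [map_mul, hI.neg b hI.bA, hI.neg t hI.tA]; decide

end Pool.Agent.Lib.MP_688fd0_co.SQ5.NA
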